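import Mathlib
import Pool.Agent.V1168.UN.Props
import Pool.Agent.V1168.EF.Props

/-!
# Beilinson–Soulé vanishing for products with abelian varieties over finite fields: definitions
-/

set_option autoImplicit false

namespace Pool.Agent.H8EM

open Polynomial Module Pool.Agent.Y156.L Pool.Agent.V1168.UN

section

variable {Λ : Type} [Field Λ] {A : AbelianData Λ} (T : RelData A)

/-- The motivic cohomology groups `H^i(U, ℚ(j))` are zero for `j < 0`, and for `j = 0` and `i < 0`. -/
def LowWeightsZero : Prop := ∀ i j : ℤ, (j < 0 ∨ (j = 0 ∧ i < 0)) → T.grN i j = ⊥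

/-- The vanishing conjecture of Beilinson and Soulé for `A × U` and `U`, with rational coefficients.
For all `n ≥ 1`: the groups `H^i(A × U, ℚ(n))` are zero for all `i ≤ 0` if and only if, for all `k` with
`k ≤ dim A` and `k < n`, the groups `H^i(U, ℚ(n - k))` are zero for all `i ≤ - 2 k`. And these groups are
zero for all `i ≤ 0` and all weights `n ≥ 1` for `A × U` if and only if this holds for `U`. -/
def VanishingEquiv : Prop :=
  (∀ n : ℕ, 0 < n → ((∀ i : ℤ, i ≤ 0 → T.grM i n = ⊥) ↔
    ∀ k : ℕ, k ≤ A.dim → k < n → ∀ i : ℤ, i ≤ -2 * k → T.grN i (n - k) = ⊥)) ∧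
  ((∀ n : ℕ, 0 < n → ∀ i : ℤ, i ≤ 0 → T.grM i n = ⊥) ↔
    ∀ n : ℕ, 0 < n → ∀ i : ℤ, i ≤ 0 → T.grN i n = ⊥)

/-- The Frobenius endomorphism of `U` satisfies on each group `H^i(A × U, ℚ(j))` a nonzero polynomial
with rational coefficients all of whose complex roots satisfy `R`. -/
def FrobeniusRootsQ (R : ℂ → Prop) : Prop :=
  ∀ i j : ℤ, ∃ χ : ℚ[X], χ ≠ 0 ∧ (∀ ρ : ℂ, aeval ρ χ = 0 → R ρ) ∧
    ∀ m, T.DegM i j m → aeval T.frobM χ m = 0

end

/-- `VanishingTimes R q f`: for every abelian variety `A` as in `IsAbelian` over the field with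
`Q = q ^ s` elements and every theory `T` (motivic cohomology) relative to a smooth variety `U` over the
field with `Q` elements, with the formal properties (`IsRel`), pure (`IsPure`: the Frobenius endomorphism
of `A × U` acts as `Q ^ j` in weight `j`) and with the properties `LowWeightsZero` and
`FrobeniusRootsQ T R`, the conclusion `VanishingEquiv` holds. -/
def VanishingTimes (R : ℂ → Prop) {I : Type} (q : ℕ) (f : I → ℤ[X]) : Prop :=
  ∀ (Λ : Type) [Field Λ] [CharZero Λ] (A : AbelianData Λ) (s : ℕ), IsAbelian A q s f →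
    ∀ T : RelData A, IsRel (q ^ s) T → T.IsPure (q ^ s) → LowWeightsZero T →
      FrobeniusRootsQ T R → VanishingEquiv T

end Pool.Agent.H8EM
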