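import Mathlib
import Pool.Agent.H8EM.BSDefs
import Pool.Agent.V1168.UN.Thms
import Pool.Agent.V1168.EF.Base

/-!
# Beilinson–Soulé vanishing for products with abelian varieties over finite fields: proofs
-/

set_option autoImplicit false
set_option linter.unusedSectionVars false
set_option linter.unusedVariables false

namespace Pool.Agent.H8EM

open Module Polynomial Pool.Agent.Y156.L Pool.Agent.W484.HS Pool.Agent.Y1.CT Pool.Agent.V1168.UN

section

variable {Λ : Type} [Field Λ] [CharZero Λ] {A : AbelianData Λ} {T : RelData A} {Q : ℕ}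
  {J : Type} [Fintype J] {c : J → ℕ} {D E : J → A.CH}

theorem vanishing_of (hF : IsFamily A c D) (hdual : Pool.Agent.Y156.L.IsDual A c D E)
    (hT : IsRel Q T) (hpure : T.IsPure Q) (hlow : LowWeightsZero T)
    (hexp : ∀ (i j : ℤ) (m : T.M), T.InvM Q i j m → m = ∑ t, T.times (D t) (T.pair (E t) m)) :
    VanishingEquiv T := by
  classical
  have hdown : ∀ (i j : ℤ) (t : J), T.grM (i + 2 * c t) (j + c t) = ⊥ → T.grN i j = ⊥ := by
    intro i j t h
    rw [Submodule.eq_bot_iff]
    intro x hx
    have h1 : T.DegM (i + 2 * c t) (j + c t) (T.mul (D t) x) :=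
      hT.graded.mul_mem (hdual.left t) hx
    have h2 : T.times (D t) x ∈ T.grM (i + 2 * c t) (j + c t) := h1
    rw [h, Submodule.mem_bot] at h2
    have h3 : T.pair (E t) (T.times (D t) x) = A.deg (E t * D t) • x :=
      hT.graded.push_mul _ _ _
    rw [h2, map_zero, mul_comm, hdual.eq, one_smul] at h3
    exact h3.symm
  have hup : ∀ (i j : ℤ), (∀ t, T.grN (i - 2 * c t) (j - c t) = ⊥) → T.grM i j = ⊥ := by
    intro i j h
    rw [Submodule.eq_bot_iff]
    intro m hm
    rw [hexp i j m (hpure i j m hm)]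
    refine Finset.sum_eq_zero fun t _ => ?_
    have h1 : T.DegN (i - 2 * c t) (j - c t) (T.push (E t) m) :=
      hT.graded.push_mem (by have := hdual.le t; omega) (hdual.right t) hm
    have h2 : T.pair (E t) m ∈ T.grN (i - 2 * c t) (j - c t) := h1
    rw [h t, Submodule.mem_bot] at h2
    rw [h2, map_zero]
  have h0 : ∀ n : ℕ, 0 < n → ((∀ i : ℤ, i ≤ 0 → T.grM i n = ⊥) ↔
      ∀ k : ℕ, k ≤ A.dim → k < n → ∀ i : ℤ, i ≤ -2 * k → T.grN i (n - k) = ⊥) := by
    intro n hn
    constructor
    · intro h k hk hkn i hi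
      obtain ⟨t, ht⟩ := hF.exists_eq k hk
      refine hdown i (n - k) t ?_
      rw [ht, sub_add_cancel]
      exact h _ (by linarith)
    · intro h i hi
      refine hup i n fun t => ?_
      rcases lt_trichotomy (c t) n with hc | hc | hc
      · exact h (c t) (hdual.le t) hc _ (by linarith)
      · refine hlow _ _ (Or.inr ⟨?_, ?_⟩)
        · rw [hc, sub_self]
        · have : (1 : ℤ) ≤ c t := by rw [hc]; exact_mod_cast hn
          linarith
      · refine hlow _ _ (Or.inl ?_)
        have : (n : ℤ) < c t := by exact_mod_cast hc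
        linarith
  refine ⟨h0, ?_, ?_⟩
  · intro h n hn i hi
    have h1 := (h0 n hn).1 (h n hn) 0 (Nat.zero_le _) hn i (by
      rw [Nat.cast_zero, mul_zero]
      exact hi)
    rwa [Nat.cast_zero, sub_zero] at h1
  · intro h n hn
    refine (h0 n hn).2 fun k hk hkn i hi => ?_
    have h1 := h (n - k) (by omega) i (by
      have : (0 : ℤ) ≤ k := Int.natCast_nonneg k
      linarith)
    rwa [Nat.cast_sub hkn.le] at h1

end

theorem vanishing_unrelated {I : Type} {K : I → Type} [∀ i, Field (K i)] {q : ℕ} {f : I → ℤ[X]}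
    (hq : 1 < q) (hR : NoRel f q (Unrelated K)) : VanishingTimes (Unrelated K) q f := by
  intro Λ _ _ A s hA T hT hpure hlow hK
  obtain ⟨J, hJ, c, D, E', hF, hdual, hQ, hmain⟩ := Pool.Agent.V1168.UN.exists_classes hq hR hA
  exact vanishing_of hF hdual hT hpure hlow (hmain T hT hK).1

theorem vanishing_generated {I : Type} {p : ℕ} {Ω : Finset ℂ} {q : ℕ} {f : I → ℤ[X]}
    (hq : 1 < q) (hR : NoRel f q (Pool.Agent.V1168.EF.Generated p Ω)) :
    VanishingTimes (Pool.Agent.V1168.EF.Generated p Ω) q f := by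
  intro Λ _ _ A s hA T hT hpure hlow hK
  obtain ⟨J, hJ, c, D, E', hF, hdual, hQ, hmain⟩ := Pool.Agent.V1168.EF.exists_classes hq hR hA
  exact vanishing_of hF hdual hT hpure hlow (hmain T hT hK).1

end Pool.Agent.H8EM
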