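import Mathlib
import Pool.Agent.V1168.BB.IntDefs

/-!
# Étale motivic cohomology of products with abelian varieties over finite fields: definitions

The data of the Chow ring and the correspondences with integral coefficients (`IntegralData`), of a
bigraded theory (`IntTheory`) and the formal properties `IsIntegralData`, `IsIntGraded`, `IsIntAction`
are those of helper68 (`Pool.Agent.V1168.BB`). The condition that the groups in negative weights are
zero is dropped here: for negative `j` the étale motivic cohomology `H^i(X, ℤ(j))` of a smooth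
projective variety is `H^(i - 1)(X, ℚ / ℤ(j))` (without the part at the characteristic), by the usual
convention, and these groups are needed for the push-forward.
-/

set_option autoImplicit false

namespace Pool.Agent.H8EM

open Polynomial Module Pool.Agent.Y156.L Pool.Agent.V1168.BB

section

variable {Λ : Type} [Field Λ] {A : AbelianData Λ} {Z : IntegralData A} (T : IntTheory Z)

/-- The subgroups of the elements of the `H^i(Y, ℤ(j))` and `H^i(A × Y, ℤ(j))` which are annihilated by
an integer `n ≠ 0` are finite. -/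
structure IsFiniteTorsion : Prop where
  finiteN : ∀ (i j : ℤ) (n : ℕ), n ≠ 0 → {x | x ∈ T.grN i j ∧ n • x = 0}.Finite
  finiteM : ∀ (i j : ℤ) (n : ℕ), n ≠ 0 → {x | x ∈ T.grM i j ∧ n • x = 0}.Finite

/-- The formal properties of the étale motivic cohomology `T` of `Y` and `A × Y` over the field with
`Q` elements. -/
structure IsEtaleTheory (Q : ℕ) : Prop where
  data : IsIntegralData Z
  graded : IsIntGraded T
  action : IsIntAction T Q
  finite : IsFiniteTorsion T

/-- The Frobenius endomorphism of `Y` satisfies on each group `H^i(A × Y, ℤ(j))`, `j ≥ 0`, a nonzero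
polynomial with integral coefficients all of whose complex roots satisfy `R`. -/
def FrobeniusRoots (R : ℂ → Prop) : Prop :=
  ∀ (i : ℤ) (j : ℕ), ∃ χ : ℤ[X], χ ≠ 0 ∧ (∀ ρ : ℂ, aeval ρ χ = 0 → R ρ) ∧
    ∀ m ∈ T.grM i j, aeval T.frobM χ m = 0

/-- The group `H^i(A × Y, ℤ(j))`, `j ≥ 0`, is finitely generated if and only if the groups
`H^(i - 2 k)(Y, ℤ(j - k))`, `0 ≤ k ≤ dim A`, are finitely generated. -/
def FGProduct : Prop :=
  ∀ (i : ℤ) (j : ℕ), FGM T i j ↔ ∀ k : ℕ, k ≤ A.dim → FGN T (i - 2 * k) (j - k)

/-- In the numbering by dimension, `H^i(X, ℤ^c(n)) = H^(2 d + i)(X, ℤ(d - n))` for the smooth `X` of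
dimension `d`: if `Y` has the dimension `d` then for all `i` and all `n ≤ 0` the group
`H^i(A × Y, ℤ^c(n))` is finitely generated if and only if the groups `H^(i + 2 k)(Y, ℤ^c(n - k))`,
`0 ≤ k ≤ dim A`, are finitely generated; and if these groups are finitely generated for all `i` and all
`n < 0` for one of `A × Y` and `Y` then they are so for the other one. -/
def CycleEquiv : Prop :=
  ∀ d : ℕ, (∀ i n : ℤ, n ≤ 0 →
    (CycleFGM T d i n ↔ ∀ k : ℕ, k ≤ A.dim → CycleFGN T d (i + 2 * k) (n - k))) ∧
      ((∀ i n : ℤ, n < 0 → CycleFGM T d i n) ↔ ∀ i n : ℤ, n < 0 → CycleFGN T d i n)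

/-- The statement of Flach and Morin for `A × Y` and one `n ≤ 0` (the groups `H^i(A × Y, ℤ^c(n))` are
finitely generated for all `i ≤ - 2 n + 1`) is equivalent to the statements for `Y` and
`n, n - 1, …, n - dim A`, and the one for `A × Y` and all `n < 0` to the one for `Y` and all
`n < 0`. -/
def FlachMorinProduct : Prop :=
  ∀ d : ℕ, (∀ n : ℤ, n ≤ 0 → (FlachMorinM T d n ↔ ∀ k : ℕ, k ≤ A.dim → FlachMorinN T d (n - k))) ∧
    ((∀ n : ℤ, n < 0 → FlachMorinM T d n) ↔ ∀ n : ℤ, n < 0 → FlachMorinN T d n)

end

/-- `EtaleTimes R q f P`: for every abelian variety `A` as in `IsAbelian` over the field with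
`Q = q ^ s` elements and every theory `T` relative to a smooth projective variety `Y` over the field with
`Q` elements, with the properties `IsEtaleTheory` and `FrobeniusRoots T R`, the conclusion `P` holds. -/
def EtaleTimes (R : ℂ → Prop) {I : Type} (q : ℕ) (f : I → ℤ[X])
    (P : ∀ {Λ : Type} [Field Λ] {A : AbelianData Λ} {Z : IntegralData A}, IntTheory Z → Prop) :
    Prop :=
  ∀ (Λ : Type) [Field Λ] [CharZero Λ] (A : AbelianData Λ) (s : ℕ), IsAbelian A q s f →
    ∀ (Z : IntegralData A) (T : IntTheory Z), IsEtaleTheory T (q ^ s) → FrobeniusRoots T R → P T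

end Pool.Agent.H8EM
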