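import Mathlib
import Pool.Agent.V1168.UN.Props
import Pool.Agent.V1168.EF.Props

/-!
# Rational K-groups of products with abelian varieties over finite fields: definitions

For a smooth variety `X` over a finite field `K_n(X) ⊗ ℚ` is the direct sum of the motivic cohomology groups
`H^(2 j - n)(X, ℚ(j))`, for all integers `j`.
-/

set_option autoImplicit false

namespace Pool.Agent.H8EM

open Polynomial Module Pool.Agent.Y156.L Pool.Agent.V1168.UN

/-- The vector space `K_n(X) ⊗ ℚ`, the direct sum of the groups `H^(2 j - n)(X, ℚ(j))`, has finite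
dimension, where `gr i j` is the group `H^i(X, ℚ(j))`: almost all of these groups are zero, and all have
finite dimension. -/
def KFinite {V : Type} [AddCommGroup V] [Module ℚ V] (gr : ℤ → ℤ → Submodule ℚ V) (n : ℕ) : Prop :=
  {j : ℤ | gr (2 * j - n) j ≠ ⊥}.Finite ∧ ∀ j : ℤ, Module.Finite ℚ (gr (2 * j - n) j)

section

variable {Λ : Type} [Field Λ] {A : AbelianData Λ} (T : RelData A)

/-- For all `n ≥ 0`: `K_n(A × U) ⊗ ℚ` has finite dimension if and only if `K_n(U) ⊗ ℚ` has. -/
def KEquiv : Prop := ∀ n : ℕ, KFinite T.grM n ↔ KFinite T.grN n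

/-- The Frobenius endomorphism of `U` satisfies on each group `H^i(A × U, ℚ(j))` a nonzero polynomial
with rational coefficients all of whose complex roots satisfy `R`. -/
def RationalRoots (R : ℂ → Prop) : Prop :=
  ∀ i j : ℤ, ∃ χ : ℚ[X], χ ≠ 0 ∧ (∀ ρ : ℂ, aeval ρ χ = 0 → R ρ) ∧
    ∀ m, T.DegM i j m → aeval T.frobM χ m = 0

end

/-- `KTimes R q f`: for every abelian variety `A` as in `IsAbelian` over the field with `Q = q ^ s`
elements and every theory `T` (motivic cohomology) relative to a smooth variety `U` over the field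
with `Q` elements, with the formal properties (`IsRel`), pure (`IsPure`: the Frobenius endomorphism of
`A × U` acts as `Q ^ j` in weight `j`) and with the property `RationalRoots T R`: for all `n`,
`K_n(A × U) ⊗ ℚ` has finite dimension if and only if `K_n(U) ⊗ ℚ` has. -/
def KTimes (R : ℂ → Prop) {I : Type} (q : ℕ) (f : I → ℤ[X]) : Prop :=
  ∀ (Λ : Type) [Field Λ] [CharZero Λ] (A : AbelianData Λ) (s : ℕ), IsAbelian A q s f →
    ∀ T : RelData A, IsRel (q ^ s) T → T.IsPure (q ^ s) → RationalRoots T R → KEquiv T

end Pool.Agent.H8EM
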