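import Mathlib
import Pool.Agent.H8EM.KDefs
import Pool.Agent.V1168.UN.Thms
import Pool.Agent.V1168.EF.Base

/-!
# Rational K-groups of products with abelian varieties over finite fields: proofs
-/

set_option autoImplicit false
set_option linter.unusedSectionVars false
set_option linter.unusedVariables false

namespace Pool.Agent.H8EM

open Module Polynomial Pool.Agent.Y156.L Pool.Agent.W484.HS Pool.Agent.Y1.CT Pool.Agent.V1168.UN

section

variable {Λ : Type} [Field Λ] [CharZero Λ] {A : AbelianData Λ} {T : RelData A} {Q : ℕ}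
  {J : Type} [Fintype J] {c : J → ℕ} {D E : J → A.CH}

theorem kEquiv_of (hF : IsFamily A c D) (hdual : Pool.Agent.Y156.L.IsDual A c D E)
    (hT : IsRel Q T) (hpure : T.IsPure Q)
    (hexp : ∀ (i j : ℤ) (m : T.M), T.InvM Q i j m → m = ∑ t, T.times (D t) (T.pair (E t) m)) :
    KEquiv T := by
  classical
  have hdeg : ∀ (i j : ℤ) (m : T.M), m ∈ T.grM i j → m = ∑ t, T.times (D t) (T.pair (E t) m) :=
    fun i j m hm => hexp i j m (hpure i j m hm)
  have hpush : ∀ (n : ℕ) (j : ℤ) (t : J) (m : T.M), m ∈ T.grM (2 * j - n) j →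
      T.pair (E t) m ∈ T.grN (2 * (j - c t) - n) (j - c t) := by
    intro n j t m hm
    have h1 : T.DegN (2 * j - n - 2 * c t) (j - c t) (T.push (E t) m) :=
      hT.graded.push_mem (by have := hdual.le t; omega) (hdual.right t) hm
    rw [show (2 * j - n - 2 * c t : ℤ) = 2 * (j - c t) - n by ring] at h1
    exact h1
  intro n
  constructor
  · rintro ⟨h1, h2⟩
    obtain ⟨t, ht⟩ := hF.exists_eq 0 (Nat.zero_le _)
    have hmul : ∀ (j : ℤ) (x : T.N), x ∈ T.grN (2 * j - n) j →
        T.times (D t) x ∈ T.grM (2 * j - n) j := by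
      intro j x hx
      have h3 : T.DegM (2 * j - n + 2 * c t) (j + c t) (T.mul (D t) x) :=
        hT.graded.mul_mem (hdual.left t) hx
      rw [ht, Nat.cast_zero, mul_zero, add_zero, add_zero] at h3
      exact h3
    have hinj : ∀ x : T.N, T.pair (E t) (T.times (D t) x) = x := by
      intro x
      have h3 : T.pair (E t) (T.times (D t) x) = A.deg (E t * D t) • x :=
        hT.graded.push_mul _ _ _
      rw [h3, mul_comm, hdual.eq, one_smul]
    constructor
    · refine h1.subset fun j hj => ?_
      rw [Set.mem_ofPred_eq, Submodule.ne_bot_iff] at hj ⊢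
      obtain ⟨x, hx, hx0⟩ := hj
      refine ⟨T.times (D t) x, hmul j x hx, fun h0 => hx0 ?_⟩
      rw [← hinj x, h0, map_zero]
    · intro j
      have := h2 j
      let ψ : T.grN (2 * j - n) j →ₗ[ℚ] T.grM (2 * j - n) j :=
        ((T.times (D t)).comp (Submodule.subtype _)).codRestrict _ fun x => hmul j x x.2
      refine Module.Finite.of_injective ψ fun x y hxy => ?_
      have h3 : T.times (D t) (x : T.N) = T.times (D t) (y : T.N) := congrArg Subtype.val hxy
      apply Subtype.ext
      rw [← hinj x, h3, hinj y]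
  · rintro ⟨h1, h2⟩
    constructor
    · refine (Set.finite_iUnion fun t : J => h1.image (fun j => j + (c t : ℤ))).subset fun j hj => ?_
      rw [Set.mem_ofPred_eq, Submodule.ne_bot_iff] at hj
      obtain ⟨m, hm, hm0⟩ := hj
      by_contra hcon
      apply hm0
      rw [hdeg _ _ m hm]
      refine Finset.sum_eq_zero fun t _ => ?_
      have h3 : T.grN (2 * (j - c t) - n) (j - c t) = ⊥ := by
        by_contra h4
        exact hcon (Set.mem_iUnion.2 ⟨t, j - c t, h4, sub_add_cancel _ _⟩)
      have h5 := hpush n j t m hm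
      rw [h3, Submodule.mem_bot] at h5
      rw [h5, map_zero]
    · intro j
      have hfin : ∀ t : J, Module.Finite ℚ (T.grN (2 * (j - c t) - n) (j - c t)) := fun t => h2 _
      let φ : T.grM (2 * j - n) j →ₗ[ℚ] ∀ t, T.grN (2 * (j - c t) - n) (j - c t) :=
        LinearMap.pi fun t =>
          ((T.pair (E t)).comp (Submodule.subtype _)).codRestrict _ fun x => hpush n j t x x.2
      refine Module.Finite.of_injective φ fun x y hxy => ?_
      apply Subtype.ext
      rw [hdeg _ _ _ x.2, hdeg _ _ _ y.2]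
      refine Finset.sum_congr rfl fun t _ => ?_
      have h3 : T.pair (E t) (x : T.M) = T.pair (E t) (y : T.M) :=
        congrArg Subtype.val (congrFun hxy t)
      rw [h3]

end

theorem kTimes_unrelated {I : Type} {K : I → Type} [∀ i, Field (K i)] {q : ℕ} {f : I → ℤ[X]}
    (hq : 1 < q) (hR : NoRel f q (Unrelated K)) : KTimes (Unrelated K) q f := by
  intro Λ _ _ A s hA T hT hpure hK
  obtain ⟨J, hJ, c, D, E', hF, hdual, hQ, hmain⟩ := Pool.Agent.V1168.UN.exists_classes hq hR hA
  exact kEquiv_of hF hdual hT hpure (hmain T hT hK).1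

theorem kTimes_generated {I : Type} {p : ℕ} {Ω : Finset ℂ} {q : ℕ} {f : I → ℤ[X]}
    (hq : 1 < q) (hR : NoRel f q (Pool.Agent.V1168.EF.Generated p Ω)) :
    KTimes (Pool.Agent.V1168.EF.Generated p Ω) q f := by
  intro Λ _ _ A s hA T hT hpure hK
  obtain ⟨J, hJ, c, D, E', hF, hdual, hQ, hmain⟩ := Pool.Agent.V1168.EF.exists_classes hq hR hA
  exact kEquiv_of hF hdual hT hpure (hmain T hT hK).1

end Pool.Agent.H8EM
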