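import Mathlib
import Pool.Agent.H8EM.K
import Pool.Agent.H8EM.BS
import Pool.Agent.V1168.EV.Base

/-!
# Rational K-groups and Beilinson–Soulé vanishing for Frobenius eigenvalues from a finite set
-/

set_option autoImplicit false
set_option linter.unusedVariables false

namespace Pool.Agent.H8EM

open Module Polynomial Pool.Agent.Y156.L Pool.Agent.W484.HS Pool.Agent.Y1.CT Pool.Agent.V1168.UN

theorem kTimes_from {I : Type} {p : ℕ} {Ω : Finset ℂ} {q : ℕ} {f : I → ℤ[X]}
    (hq : 1 < q) (hR : NoRel f q (Pool.Agent.V1168.EV.From p Ω)) :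
    KTimes (Pool.Agent.V1168.EV.From p Ω) q f := by
  intro Λ _ _ A s hA T hT hpure hK
  obtain ⟨J, hJ, c, D, E', hF, hdual, hQ, hmain⟩ := Pool.Agent.V1168.EV.exists_classes hq hR hA
  exact kEquiv_of hF hdual hT hpure (hmain T hT hK).1

theorem vanishing_from {I : Type} {p : ℕ} {Ω : Finset ℂ} {q : ℕ} {f : I → ℤ[X]}
    (hq : 1 < q) (hR : NoRel f q (Pool.Agent.V1168.EV.From p Ω)) :
    VanishingTimes (Pool.Agent.V1168.EV.From p Ω) q f := by
  intro Λ _ _ A s hA T hT hpure hlow hK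
  obtain ⟨J, hJ, c, D, E', hF, hdual, hQ, hmain⟩ := Pool.Agent.V1168.EV.exists_classes hq hR hA
  exact vanishing_of hF hdual hT hpure hlow (hmain T hT hK).1

end Pool.Agent.H8EM
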