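import Mathlib
import Pool.Agent.H8EM.Defs
import Pool.Agent.V1168.BB.Int

/-!
# Étale motivic cohomology of products with abelian varieties over finite fields: proofs

The proof of `fgProduct` is the one of helper68 (`Pool.Agent.V1168.BB.fgEquiv`), without the condition
on the groups in negative weights.
-/

set_option autoImplicit false
set_option linter.unusedSectionVars false
set_option linter.unusedVariables false

namespace Pool.Agent.H8EM

open Module Polynomial Pool.Agent.Y156.L Pool.Agent.W484.HS Pool.Agent.Y1.CT Pool.Agent.V1168.UN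
  Pool.Agent.V1168.BB

variable {I : Type} {q : ℕ} {f : I → ℤ[X]} {R : ℂ → Prop}

/-- **Finite generation for products.** -/
theorem fgProduct (hq : 1 < q) (hR : NoRel f q R) {Λ : Type} [Field Λ] [CharZero Λ]
    {A : AbelianData Λ} {s : ℕ} (hA : IsAbelian A q s f) {Z : IntegralData A} {T : IntTheory Z}
    (hT : IsEtaleTheory T (q ^ s)) (hK : FrobeniusRoots T R) : FGProduct T := by
  classical
  obtain ⟨J, hJ, c, D, E, hF, hdual, hQ, hmain⟩ := exists_core3 hq hR hA
  obtain ⟨N₀, D', E', hN₀, hcD, hcE, hD, hE⟩ := exists_lifts hT.data hdual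
  have hG := hT.graded
  have hAc := hT.action
  intro i n
  obtain ⟨χ, hχ, hroot, hkill⟩ := hK i n
  -- the polynomials
  obtain ⟨P, hP, hPk⟩ := hmain n (χ.map (Int.castRingHom ℚ)) (by
    rw [Ne, Polynomial.map_eq_zero_iff (RingHom.injective_int _)]
    exact hχ) (fun ρ hρ => hroot ρ (by
      rw [aeval_def, eval₂_map] at hρ
      rw [aeval_def, ← hρ]
      rfl))
  have hμ : (((q ^ s : ℕ) : ℚ)) ^ (n : ℤ) = (((((q ^ s : ℕ) : ℤ) ^ n : ℤ)) : ℚ) := by
    push_cast
    rw [zpow_natCast]
  rw [hμ, ← map_revZ] at hP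
  have hrel : ∀ m ∈ T.grM i n, aeval (actZ T Z.frobZ) (revZ χ (((q ^ s : ℕ) : ℤ) ^ n)) m = 0 := by
    intro m hm
    refine aeval_revZ_op (actZ T Z.frobZ) (frobL T) (T.grM i n) _ (fun m hm => hG.FM_mem hm)
      (fun m hm => ?_) χ (fun m hm => ?_) hm
    · have h1 : T.act Z.frobZ (T.frobM m) = (q ^ s) ^ n • m := hAc.pure hm
      rw [actZ_apply, frobL_apply, h1, ← natCast_zsmul]
      push_cast
      rfl
    · rw [aeval_frobL]
      exact hkill m hm
  obtain ⟨B, b, hB, hBb⟩ := int_core hA hT.data hG hAc hdual hN₀ hcD hcE hD hE P _ hP hPk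
    (T.grM i n) (fun m hm => hG.app_mem hm) hrel
  constructor
  · intro h k hk
    rw [fgM_iff] at h
    rw [fgN_iff]
    obtain ⟨t, rfl⟩ := hF.exists_eq k hk
    have hmem : ∀ x : T.grN (i - 2 * c t) (n - c t), T.times (D' t) (x : T.N) ∈ T.grM i n := by
      intro x
      have h1 := hG.mul_mem (hcD t) x.2
      rw [show i - 2 * (c t : ℤ) + 2 * c t = i by ring, sub_add_cancel] at h1
      exact h1
    let φ : T.grN (i - 2 * c t) (n - c t) →+ T.grM i n :=
      ((T.times (D' t)).comp (AddSubgroup.subtype _)).codRestrict _ hmem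
    refine fg_of_map φ ?_
    have hfin := (hT.finite.finiteN (i - 2 * c t) (n - c t) (N₀ ^ 2) (pow_ne_zero _ hN₀)).to_subtype
    refine Finite.of_injective (β := {x | x ∈ T.grN (i - 2 * c t) (n - c t) ∧ (N₀ ^ 2) • x = 0})
      (fun x => ⟨((x : T.grN (i - 2 * c t) (n - c t)) : T.N), x.1.2, ?_⟩) ?_
    · have h1 : T.times (D' t) ((x : T.grN (i - 2 * c t) (n - c t)) : T.N) = 0 :=
        congrArg Subtype.val x.2
      have h2 := pair_times_int hT.data hG hdual hD hE t t
        ((x : T.grN (i - 2 * c t) (n - c t)) : T.N)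
      rw [h1, map_zero, if_pos rfl] at h2
      exact h2.symm
    · intro x y hxy
      have hxy' := congrArg Subtype.val hxy
      exact Subtype.ext (Subtype.ext hxy')
  · intro h
    rw [fgM_iff]
    have hfinN : ∀ t, Module.Finite ℤ (T.grN (i - 2 * c t) (n - c t)) :=
      fun t => fgN_iff.1 (h (c t) (hdual.le t))
    have hmem : ∀ (t : J) (x : T.grM i n),
        T.pair (E' t) (x : T.M) ∈ T.grN (i - 2 * c t) (n - c t) := by
      intro t x
      exact hG.push_mem (by have := hdual.le t; omega) (hcE t) x.2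
    let φ : T.grM i n →+ ∀ t, T.grN (i - 2 * c t) (n - c t) :=
      { toFun := fun x t => ⟨T.pair (E' t) x, hmem t x⟩
        map_zero' := by
          funext t
          apply Subtype.ext
          exact map_zero _
        map_add' := by
          intro x y
          funext t
          apply Subtype.ext
          exact map_add _ _ _ }
    refine fg_of_map φ ?_
    have hB' : B.natAbs ≠ 0 := Int.natAbs_ne_zero.2 hB
    have hfin := (hT.finite.finiteM i n B.natAbs hB').to_subtype
    refine Finite.of_injective (β := {x | x ∈ T.grM i n ∧ B.natAbs • x = 0})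
      (fun x => ⟨((x : T.grM i n) : T.M), x.1.2, ?_⟩) ?_
    · have h1 : ∀ t, T.pair (E' t) ((x : T.grM i n) : T.M) = 0 := fun t =>
        congrArg Subtype.val (congrFun (x.2 : φ (x : T.grM i n) = 0) t)
      have h2 := hBb _ (x : T.grM i n).2
      simp only [h1, map_zero, Finset.sum_const_zero, smul_zero] at h2
      rcases Int.natAbs_eq B with hB2 | hB2
      · rw [hB2, natCast_zsmul] at h2
        exact h2
      · rw [hB2, neg_smul, natCast_zsmul, neg_eq_zero] at h2
        exact h2
    · intro x y hxy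
      have hxy' := congrArg Subtype.val hxy
      exact Subtype.ext (Subtype.ext hxy')

section

variable {Λ : Type} [Field Λ] {A : AbelianData Λ} {Z : IntegralData A} {T : IntTheory Z}

theorem fg_int (h : FGProduct T) {i w : ℤ} (hw : 0 ≤ w) :
    FGM T i w ↔ ∀ k : ℕ, k ≤ A.dim → FGN T (i - 2 * k) (w - k) := by
  obtain ⟨n, rfl⟩ := Int.eq_ofNat_of_zero_le hw
  exact h i n

theorem cycle_iff (h : FGProduct T) {d : ℕ} {i n : ℤ} (hn : n ≤ 0) :
    CycleFGM T d i n ↔ ∀ k : ℕ, k ≤ A.dim → CycleFGN T d (i + 2 * k) (n - k) := by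
  have hw : 0 ≤ (A.dim : ℤ) + d - n := by omega
  unfold CycleFGM CycleFGN
  rw [fg_int h hw]
  constructor
  · intro h1 k hk
    have h2 := h1 (A.dim - k) (Nat.sub_le _ _)
    rw [Nat.cast_sub hk] at h2
    rw [show 2 * (d : ℤ) + (i + 2 * k) = 2 * ((A.dim : ℤ) + d) + i - 2 * ((A.dim : ℤ) - k) by ring,
      show (d : ℤ) - (n - k) = (A.dim : ℤ) + d - n - ((A.dim : ℤ) - k) by ring]
    exact h2
  · intro h1 k hk
    have h2 := h1 (A.dim - k) (Nat.sub_le _ _)
    rw [Nat.cast_sub hk] at h2
    rw [show 2 * (d : ℤ) + (i + 2 * ((A.dim : ℤ) - k)) = 2 * ((A.dim : ℤ) + d) + i - 2 * k by ring,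
      show (d : ℤ) - (n - ((A.dim : ℤ) - k)) = (A.dim : ℤ) + d - n - k by ring] at h2
    exact h2

theorem cycleEquiv (h : FGProduct T) : CycleEquiv T := by
  intro d
  refine ⟨fun i n hn => cycle_iff h hn, ?_, ?_⟩
  · intro h1 i n hn
    have h2 := (cycle_iff h hn.le).1 (h1 i n hn) 0 (Nat.zero_le _)
    rwa [Nat.cast_zero, mul_zero, add_zero, sub_zero] at h2
  · intro h1 i n hn
    exact (cycle_iff h hn.le).2 fun k _ => h1 _ _ (by omega)

theorem flachMorinProduct (h : FGProduct T) : FlachMorinProduct T := by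
  intro d
  have h0 : ∀ n : ℤ, n ≤ 0 →
      (FlachMorinM T d n ↔ ∀ k : ℕ, k ≤ A.dim → FlachMorinN T d (n - k)) := by
    intro n hn
    constructor
    · intro h1 k hk i hi
      have h2 := (cycle_iff h hn).1 (h1 (i - 2 * k) (by omega)) k hk
      rwa [sub_add_cancel] at h2
    · intro h1 i hi
      exact (cycle_iff h hn).2 fun k hk => h1 k hk _ (by omega)
  refine ⟨h0, ?_, ?_⟩
  · intro h1 n hn
    have h2 := (h0 n hn.le).1 (h1 n hn) 0 (Nat.zero_le _)
    rwa [Nat.cast_zero, sub_zero] at h2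
  · intro h1 n hn
    exact (h0 n hn.le).2 fun k _ => h1 _ (by omega)

theorem topWeightEquiv (h : FGProduct T) : TopWeightEquiv T := by
  intro d
  have hw : 0 ≤ (A.dim : ℤ) + d := by omega
  constructor
  · intro h1 k hk i hi
    have h2 := (fg_int h hw).1 (h1 (i + 2 * ((A.dim : ℤ) - k)) (by omega)) (A.dim - k)
      (Nat.sub_le _ _)
    rw [Nat.cast_sub hk] at h2
    rw [add_sub_cancel_right, show (A.dim : ℤ) + d - ((A.dim : ℤ) - k) = d + k by ring] at h2
    exact h2
  · intro h1 i hi
    refine (fg_int h hw).2 fun k hk => ?_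
    have h2 := h1 (A.dim - k) (Nat.sub_le _ _) (i - 2 * k) (by
      rw [Nat.cast_sub hk]
      omega)
    rw [Nat.cast_sub hk] at h2
    rw [show (d : ℤ) + ((A.dim : ℤ) - k) = (A.dim : ℤ) + d - k by ring] at h2
    exact h2

theorem topRangeEquiv (h : FGProduct T) : TopRangeEquiv T := by
  intro d
  have hw : 0 ≤ (A.dim : ℤ) + d := by omega
  constructor
  · intro h1 k hk i hi hi'
    have h2 := (fg_int h hw).1 (h1 (i + 2 * ((A.dim : ℤ) - k)) (by omega) (by omega)) (A.dim - k)
      (Nat.sub_le _ _)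
    rw [Nat.cast_sub hk] at h2
    rw [add_sub_cancel_right, show (A.dim : ℤ) + d - ((A.dim : ℤ) - k) = d + k by ring] at h2
    exact h2
  · intro h1 i hi hi'
    refine (fg_int h hw).2 fun k hk => ?_
    have h2 := h1 (A.dim - k) (Nat.sub_le _ _) (i - 2 * k) (by
      rw [Nat.cast_sub hk]
      omega) (by
      rw [Nat.cast_sub hk]
      omega)
    rw [Nat.cast_sub hk] at h2
    rw [show (d : ℤ) + ((A.dim : ℤ) - k) = (A.dim : ℤ) + d - k by ring] at h2
    exact h2

end

theorem cycle_times (hq : 1 < q) (hR : NoRel f q R) :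
    EtaleTimes R q f fun T => CycleEquiv T :=
  fun Λ _ _ A s hA Z T hT hK => cycleEquiv (fgProduct hq hR hA hT hK)

theorem flachMorin_times (hq : 1 < q) (hR : NoRel f q R) :
    EtaleTimes R q f fun T => FlachMorinProduct T :=
  fun Λ _ _ A s hA Z T hT hK => flachMorinProduct (fgProduct hq hR hA hT hK)

theorem topWeight_times (hq : 1 < q) (hR : NoRel f q R) :
    EtaleTimes R q f fun T => TopWeightEquiv T :=
  fun Λ _ _ A s hA Z T hT hK => topWeightEquiv (fgProduct hq hR hA hT hK)

theorem topRange_times (hq : 1 < q) (hR : NoRel f q R) :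
    EtaleTimes R q f fun T => TopRangeEquiv T :=
  fun Λ _ _ A s hA Z T hT hK => topRangeEquiv (fgProduct hq hR hA hT hK)

end Pool.Agent.H8EM
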