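import Mathlib
import Pool.Agent.V1168.BB.IntDefs

/-!
# Unramified cohomology of products with abelian varieties over finite fields: definitions

For a smooth projective variety `X` over a finite field there is an exact sequence
`0 → CH^2(X) → H^4(X_et, ℤ(2)) → H^3_nr(X, ℚ/ℤ(2)) → 0` (Lichtenbaum, Kahn). So we consider the theory
with the groups `G^i(X, j)`, the cokernel of the map from the motivic to the étale motivic
cohomology group `H^i(X, ℤ(j))`, with `G^4(X, 2) = H^3_nr(X, ℚ/ℤ(2))`.
-/

set_option autoImplicit false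

namespace Pool.Agent.H8EM

open Polynomial Module Pool.Agent.Y156.L Pool.Agent.V1168.BB

section

variable {Λ : Type} [Field Λ] {A : AbelianData Λ} {Z : IntegralData A} (T : IntTheory Z)

/-- The properties of the theory `G^i(X, j)` for `X = Y` and `X = A × Y` over the field with `Q`
elements: the formal properties of products with cycles on `A`, push-forwards, correspondences and
Frobenius endomorphisms; the groups `G^(2 j)(Y, j)` are zero for `j ≤ 1`, since the étale and the Zariski
motivic cohomology agree (`j = 0, 1`) or are zero (`j < 0`) in these degrees; and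
`G^4(X, 2) = H^3_nr(X, ℚ/ℤ(2))` is finite if it is annihilated by an integer `n ≠ 0` (this follows from
the finiteness of `H^3(X, ℚ/ℤ(2))` and the exact sequence
`H^3(X, ℚ/ℤ(2)) → H^3_nr(X, ℚ/ℤ(2)) → CH^2(X) ⊗ ℚ/ℤ → H^4(X, ℚ/ℤ(2))`). -/
structure IsUnramifiedTheory (Q : ℕ) : Prop where
  data : IsIntegralData Z
  graded : IsIntGraded T
  action : IsIntAction T Q
  low : ∀ j : ℤ, j ≤ 1 → T.grN (2 * j) j = ⊥
  boundedN : ∀ n : ℕ, n ≠ 0 → (∀ x ∈ T.grN 4 2, n • x = 0) → (T.grN 4 2 : Set T.N).Finite
  boundedM : ∀ n : ℕ, n ≠ 0 → (∀ x ∈ T.grM 4 2, n • x = 0) → (T.grM 4 2 : Set T.M).Finite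

/-- The Frobenius endomorphism of `Y` satisfies on the group `G^4(A × Y, 2) = H^3_nr(A × Y, ℚ/ℤ(2))` a
nonzero polynomial with integral coefficients all of whose complex roots satisfy `R`. -/
def UnramifiedRoots (R : ℂ → Prop) : Prop :=
  ∃ χ : ℤ[X], χ ≠ 0 ∧ (∀ ρ : ℂ, aeval ρ χ = 0 → R ρ) ∧ ∀ m ∈ T.grM 4 2, aeval T.frobM χ m = 0

/-- The group `H^3_nr(A × Y, ℚ/ℤ(2))` is finite if and only if `H^3_nr(Y, ℚ/ℤ(2))` is finite. -/
def UnramifiedEquiv : Prop :=
  (T.grM 4 2 : Set T.M).Finite ↔ (T.grN 4 2 : Set T.N).Finite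

end

/-- `UnramifiedTimes R q f`: for every abelian variety `A` as in `IsAbelian` over the field with
`Q = q ^ s` elements and every theory `T` relative to a smooth projective variety `Y` over the field with
`Q` elements, with the properties `IsUnramifiedTheory` and `UnramifiedRoots T R`, the group
`H^3_nr(A × Y, ℚ/ℤ(2))` is finite if and only if `H^3_nr(Y, ℚ/ℤ(2))` is finite. -/
def UnramifiedTimes (R : ℂ → Prop) {I : Type} (q : ℕ) (f : I → ℤ[X]) : Prop :=
  ∀ (Λ : Type) [Field Λ] [CharZero Λ] (A : AbelianData Λ) (s : ℕ), IsAbelian A q s f →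
    ∀ (Z : IntegralData A) (T : IntTheory Z), IsUnramifiedTheory T (q ^ s) →
      UnramifiedRoots T R → UnramifiedEquiv T

end Pool.Agent.H8EM
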