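import Mathlib
import Pool.Agent.H8EM.NrDefs
import Pool.Agent.V1168.BB.Int

/-!
# Unramified cohomology of products with abelian varieties over finite fields: proofs
-/

set_option autoImplicit false
set_option linter.unusedSectionVars false
set_option linter.unusedVariables false

namespace Pool.Agent.H8EM

open Module Polynomial Pool.Agent.Y156.L Pool.Agent.W484.HS Pool.Agent.Y1.CT Pool.Agent.V1168.UN
  Pool.Agent.V1168.BB

variable {I : Type} {q : ℕ} {f : I → ℤ[X]} {R : ℂ → Prop}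

/-- The integral decomposition, up to bounded torsion. -/
theorem exists_formula (hq : 1 < q) (hR : NoRel f q R) {Λ : Type} [Field Λ] [CharZero Λ]
    {A : AbelianData Λ} {s : ℕ} (hA : IsAbelian A q s f) {Z : IntegralData A} {T : IntTheory Z}
    (hZ : IsIntegralData Z) (hG : IsIntGraded T) (hAc : IsIntAction T (q ^ s)) :
    ∃ (J : Type) (_ : Fintype J) (c : J → ℕ) (D E : J → Z.CHZ) (N₀ : ℕ), N₀ ≠ 0 ∧
      (∀ t, c t ≤ A.dim) ∧ (∀ k ≤ A.dim, ∃ t, c t = k) ∧ (∀ t, D t ∈ Z.cod (c t)) ∧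
      (∀ t, E t ∈ Z.cod (A.dim - c t)) ∧ (∀ t (x : T.N), T.pair (E t) (T.times (D t) x) =
        (N₀ ^ 2) • x) ∧
      ∀ (i : ℤ) (n : ℕ) (χ : ℤ[X]), χ ≠ 0 → (∀ ρ : ℂ, aeval ρ χ = 0 → R ρ) →
        (∀ m ∈ T.grM i n, aeval T.frobM χ m = 0) →
          ∃ B b : ℤ, B ≠ 0 ∧ ∀ m ∈ T.grM i n, B • m = b • ∑ t, T.times (D t) (T.pair (E t) m) := by
  classical
  obtain ⟨J, hJ, c, D, E, hF, hdual, hQ, hmain⟩ := exists_core3 hq hR hA
  obtain ⟨N₀, D', E', hN₀, hcD, hcE, hD, hE⟩ := exists_lifts hZ hdual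
  refine ⟨J, hJ, c, D', E', N₀, hN₀, hdual.le, hF.exists_eq, hcD, hcE, fun t x => ?_,
    fun i n χ hχ hroot hkill => ?_⟩
  · have h2 := pair_times_int hZ hG hdual hD hE t t x
    rw [if_pos rfl] at h2
    exact h2
  -- the polynomials
  obtain ⟨P, hP, hPk⟩ := hmain n (χ.map (Int.castRingHom ℚ)) (by
    rw [Ne, Polynomial.map_eq_zero_iff (RingHom.injective_int _)]
    exact hχ) (fun ρ hρ => hroot ρ (by
      rw [aeval_def, eval₂_map] at hρ
      rw [aeval_def, ← hρ]
      rfl))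
  have hμ : (((q ^ s : ℕ) : ℚ)) ^ (n : ℤ) = (((((q ^ s : ℕ) : ℤ) ^ n : ℤ)) : ℚ) := by
    push_cast
    rw [zpow_natCast]
  rw [hμ, ← map_revZ] at hP
  have hrel : ∀ m ∈ T.grM i n, aeval (actZ T Z.frobZ) (revZ χ (((q ^ s : ℕ) : ℤ) ^ n)) m = 0 := by
    intro m hm
    refine aeval_revZ_op (actZ T Z.frobZ) (frobL T) (T.grM i n) _ (fun m hm => hG.FM_mem hm)
      (fun m hm => ?_) χ (fun m hm => ?_) hm
    · have h1 : T.act Z.frobZ (T.frobM m) = (q ^ s) ^ n • m := hAc.pure hm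
      rw [actZ_apply, frobL_apply, h1, ← natCast_zsmul]
      push_cast
      rfl
    · rw [aeval_frobL]
      exact hkill m hm
  exact int_core hA hZ hG hAc hdual hN₀ hcD hcE hD hE P _ hP hPk
    (T.grM i n) (fun m hm => hG.app_mem hm) hrel

theorem exists_exponent {G : Type} [AddCommGroup G] {S : AddSubgroup G}
    (hS : (S : Set G).Finite) : ∃ n : ℕ, n ≠ 0 ∧ ∀ x ∈ S, n • x = 0 := by
  have : Finite S := hS
  refine ⟨Nat.card S, Nat.card_ne_zero.2 ⟨⟨0⟩, this⟩, fun x hx => ?_⟩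
  have h := card_nsmul_eq_zero' (x := (⟨x, hx⟩ : S))
  exact congrArg Subtype.val h

/-- **Finiteness of the unramified cohomology of products.** -/
theorem unramifiedEquiv (hq : 1 < q) (hR : NoRel f q R) {Λ : Type} [Field Λ] [CharZero Λ]
    {A : AbelianData Λ} {s : ℕ} (hA : IsAbelian A q s f) {Z : IntegralData A} {T : IntTheory Z}
    (hT : IsUnramifiedTheory T (q ^ s)) (hK : UnramifiedRoots T R) : UnramifiedEquiv T := by
  obtain ⟨J, hJ, c, D, E, N₀, hN₀, hcle, hex, hcD, hcE, hpair, hform⟩ :=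
    exists_formula hq hR hA hT.data hT.graded hT.action
  have hG := hT.graded
  obtain ⟨χ, hχ, hroot, hkill⟩ := hK
  obtain ⟨B, b, hB, hBb⟩ := hform 4 2 χ hχ hroot hkill
  constructor
  · intro h
    obtain ⟨n, hn, hn'⟩ := exists_exponent h
    refine hT.boundedN (n * N₀ ^ 2) (mul_ne_zero hn (pow_ne_zero _ hN₀)) fun x hx => ?_
    obtain ⟨t, ht⟩ := hex 0 (Nat.zero_le _)
    have h1 : T.times (D t) x ∈ T.grM 4 2 := by
      have h2 := hG.mul_mem (hcD t) hx
      rw [ht, Nat.cast_zero, mul_zero, add_zero, add_zero] at h2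
      exact h2
    rw [mul_smul, ← hpair t x, ← map_nsmul, hn' _ h1, map_zero]
  · intro h
    obtain ⟨n, hn, hn'⟩ := exists_exponent h
    refine hT.boundedM (n * B.natAbs) (mul_ne_zero hn (Int.natAbs_ne_zero.2 hB)) fun x hx => ?_
    have h1 : ∀ t, n • T.times (D t) (T.pair (E t) x) = 0 := by
      intro t
      have h2 : T.pair (E t) x ∈ T.grN (4 - 2 * c t) (2 - c t) :=
        hG.push_mem (by have := hcle t; omega) (hcE t) hx
      rcases Nat.eq_zero_or_pos (c t) with hc | hc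
      · rw [hc, Nat.cast_zero, mul_zero, sub_zero, sub_zero] at h2
        rw [← map_nsmul, hn' _ h2, map_zero]
      · have h3 := hT.low (2 - c t) (by omega)
        rw [show 2 * (2 - (c t : ℤ)) = 4 - 2 * c t by ring] at h3
        rw [h3, AddSubgroup.mem_bot] at h2
        rw [h2, map_zero, smul_zero]
    have h4 : (n : ℤ) • (B • x) = 0 := by
      rw [hBb x hx, smul_comm, natCast_zsmul, Finset.smul_sum,
        Finset.sum_eq_zero fun t _ => h1 t, smul_zero]
    rcases Int.natAbs_eq B with hB2 | hB2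
    · rw [hB2, natCast_zsmul, natCast_zsmul] at h4
      rw [mul_smul]
      exact h4
    · rw [hB2, neg_smul, smul_neg, natCast_zsmul, natCast_zsmul, neg_eq_zero] at h4
      rw [mul_smul]
      exact h4

theorem unramified_times (hq : 1 < q) (hR : NoRel f q R) : UnramifiedTimes R q f :=
  fun Λ _ _ A s hA Z T hT hK => unramifiedEquiv hq hR hA hT hK

end Pool.Agent.H8EM
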